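import Pool.Agent.K1H47.RC.Glob2

/-!
# Weak approximation near rational curves on surfaces with an automorphism

Let `X = V(S)` be a projective variety over a number field `K`, `φ` an automorphism of `X` over
`K`, and `R` a rational curve on `X` over `K`, parametrized by polynomials `r`, such that `X` is a
smooth surface at some point of `R`, and no iterate `φ ^ k`, `k ≥ 1`, maps `R` to itself. For
example, `X` is a K3 surface and `φ` has infinite order. We prove that there is `N ≥ 1` such that
for all finite families of distinct primes `p i` which do not divide `N` and all embeddings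
`σ i : K → ℚ_[p i]`, the point `r(s)` of `∏ X(ℚ_[p i])` has, for all `s` in a dense open subset of
`∏ ℚ_[p i]`, a neighbourhood in `∏ X(ℚ_[p i])` in which the `K`-points are dense. So the closure of
`X(K)` has interior points near all points of `∏ R(ℚ_[p i])`.

Idea of the proof. At the primes which do not divide `N` the automorphism has good reduction, and
an iterate `φ ^ k` is interpolated on the residue classes modulo `p²`: the points
`φ ^ (k t) (r(s))`, `t ∈ ℤ_p`, exist and are analytic in `(s, t)`. If the rank of this
two-dimensional family is at most one everywhere, then a differential equation shows that it stays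
in `R`, so `R` is periodic. Otherwise the family covers a neighbourhood of some of its points, by
the inverse function theorem, and the times `t` and the parameters `s` can be approximated at all
the primes simultaneously by natural and by rational numbers. The automorphism moves the
neighbourhood back to the curve.
-/

set_option autoImplicit false

namespace Pool.Agent.Results.MP_ed3816_nt.AutomorphismsAndRationalCurves

open MvPolynomial Topology

/-- The values of the tuple `f` of polynomials over `K` at the vector `z` over the extension `F`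
of `K`. -/
noncomputable def value {K F : Type} [Field K] [Field F] (τ : K →+* F) {n : ℕ}
    (f : Fin (n + 1) → MvPolynomial (Fin (n + 1)) K) (z : Fin (n + 1) → F) : Fin (n + 1) → F :=
  fun i => eval₂ τ z (f i)

/-- The tuples `f a` define a map from `V(S)` to `V(S)` of which the tuples `g b` define a left
inverse: over every extension field `F` of `K`, at every point `z` of `V(S)`, one of the tuples
`f a` does not vanish; each `f a` which does not vanish at `z` has its value in `V(S)`, and each
`g b` which does not vanish at this value brings it back to the point `z`. -/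
def Inverts {K : Type} [Field K] {n : ℕ} (S : Set (MvPolynomial (Fin (n + 1)) K)) {r : ℕ}
    (f g : Fin r → Fin (n + 1) → MvPolynomial (Fin (n + 1)) K) : Prop :=
  ∀ (F : Type) [Field F] (τ : K →+* F) (z : Fin (n + 1) → F), z ≠ 0 →
    (∀ s ∈ S, eval₂ τ z s = 0) →
    (∃ a, value τ (f a) z ≠ 0) ∧
    ∀ a, value τ (f a) z ≠ 0 →
      (∀ s ∈ S, eval₂ τ (value τ (f a) z) s = 0) ∧
      ∀ b, value τ (g b) (value τ (f a) z) ≠ 0 →
        ∃ c : F, value τ (g b) (value τ (f a) z) = c • z

/-- An automorphism of the projective variety `V(S)` over `K` together with its inverse, each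
of them given by finitely many tuples of forms of positive degree. -/
structure Automorphism {K : Type} [Field K] {n : ℕ}
    (S : Set (MvPolynomial (Fin (n + 1)) K)) where
  r : ℕ
  f : Fin r → Fin (n + 1) → MvPolynomial (Fin (n + 1)) K
  g : Fin r → Fin (n + 1) → MvPolynomial (Fin (n + 1)) K
  d : Fin r → ℕ
  e : Fin r → ℕ
  d_pos : ∀ a, 0 < d a
  e_pos : ∀ a, 0 < e a
  f_hom : ∀ a i, (f a i).IsHomogeneous (d a)
  g_hom : ∀ a i, (g a i).IsHomogeneous (e a)
  left : Inverts S f g
  right : Inverts S g f

/-- `w` represents the image of the point represented by `z` under the `k`-th iterate of `φ`. -/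
def Image {K : Type} [Field K] {n : ℕ} {S : Set (MvPolynomial (Fin (n + 1)) K)}
    (φ : Automorphism S) : ℕ → (Fin (n + 1) → K) → (Fin (n + 1) → K) → Prop
  | 0, z, w => w = z
  | k + 1, z, w => ∃ v, Image φ k z v ∧ ∃ a, w = value (RingHom.id K) (φ.f a) v ∧ w ≠ 0

/-- The point of the curve with the parameter `s`, over an extension of `K`. -/
noncomputable def point {K L : Type} [Field K] [Field L] (σ : K →+* L) {n : ℕ}
    (r : Fin (n + 1) → Polynomial K) (s : L) : Fin (n + 1) → L := fun i => (r i).eval₂ σ s

/-- The tangent space at `z` of the cone over `V(S)`. -/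
noncomputable def tangentSpace {K : Type} [Field K] {n : ℕ} (S : Set (MvPolynomial (Fin (n + 1)) K))
    (z : Fin (n + 1) → K) : Submodule K (Fin (n + 1) → K) :=
  ⨅ q ∈ S, LinearMap.ker (∑ i, eval z (pderiv i q) • LinearMap.proj i :
    (Fin (n + 1) → K) →ₗ[K] K)

/-- The curve with the parametrization `r` is not mapped to itself by the `k`-th iterate of `φ`:
some form vanishes along the curve but not at the image of one of its points. -/
def Moves {K : Type} [Field K] {n : ℕ} {S : Set (MvPolynomial (Fin (n + 1)) K)}
    (φ : Automorphism S) (r : Fin (n + 1) → Polynomial K) (k : ℕ) : Prop :=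
  ∃ (W : MvPolynomial (Fin (n + 1)) K) (e : ℕ), W.IsHomogeneous e ∧ aeval r W = 0 ∧
    ∃ s : K, point (RingHom.id K) r s ≠ 0 ∧
      ∃ w, Image φ k (point (RingHom.id K) r s) w ∧ eval w W ≠ 0

/-- The `K`-rational points of `V(S)` in the product over the places `σ i`: all families of
representatives, over the completions, of the images of one `K`-rational point. -/
def rationalPoints {K : Type} [Field K] {n : ℕ} (S : Set (MvPolynomial (Fin (n + 1)) K))
    {ι : Type} {p : ι → ℕ} [∀ i, Fact (p i).Prime] (σ : ∀ i, K →+* ℚ_[p i]) :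
    Set (∀ i, Fin (n + 1) → ℚ_[p i]) :=
  {x | ∃ y : Fin (n + 1) → K, y ≠ 0 ∧ (∀ q ∈ S, eval y q = 0) ∧
    ∀ i, ∃ c : ℚ_[p i], c ≠ 0 ∧ x i = fun j => c * σ i (y j)}

/-- The same data in the notation of the helper files. -/
def Automorphism.toAut {K : Type} [Field K] {n : ℕ} {S : Set (MvPolynomial (Fin (n + 1)) K)}
    (φ : Automorphism S) : Pool.Agent.K1H69.MZ.Aut S where
  m := φ.r
  f := φ.f
  g := φ.g
  d := φ.d
  e := φ.e
  d_pos := φ.d_pos
  e_pos := φ.e_pos
  f_hom := φ.f_hom
  g_hom := φ.g_hom
  left := φ.left
  right := φ.right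

lemma img_of_image {K : Type} [Field K] {n : ℕ} {S : Set (MvPolynomial (Fin (n + 1)) K)}
    (φ : Automorphism S) (k : ℕ) : ∀ {z w : Fin (n + 1) → K}, Image φ k z w →
      Pool.Agent.K1H69.MZ.Img φ.toAut k z w := by
  induction k with
  | zero => intro z w h; exact h
  | succ k ih =>
    rintro z w ⟨v, hv, a, hw⟩
    exact ⟨v, ih hv, a, hw⟩

lemma tangentSpace_eq {K : Type} [Field K] {n : ℕ} (S : Set (MvPolynomial (Fin (n + 1)) K))
    (z : Fin (n + 1) → K) : tangentSpace S z = Pool.Agent.K1H47.RC.tanSp S z := by
  ext w
  simp only [tangentSpace, Submodule.mem_iInf, LinearMap.mem_ker]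
  refine forall₂_congr fun q _ => ?_
  simp [LinearMap.sum_apply]

/-- **Weak approximation near rational curves on surfaces with an automorphism.** -/
theorem result (K : Type) [Field K] [NumberField K] (n : ℕ)
    (S : Set (MvPolynomial (Fin (n + 1)) K)) (hS : ∀ q ∈ S, ∃ d : ℕ, q.IsHomogeneous d)
    (φ : Automorphism S) (r : Fin (n + 1) → Polynomial K)
    -- `r` parametrizes a curve on `V(S)`
    (hr : ∀ q ∈ S, aeval r q = 0)
    (hc : ∃ i j, r i * (r j).derivative ≠ r j * (r i).derivative)
    -- at some point of the curve the tangent space of `V(S)` has dimension at most two (three for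
    -- the cone), so if `V(S)` is a surface then this is a smooth point
    (hsm : ∃ s : K, Module.finrank K (tangentSpace S (point (RingHom.id K) r s)) ≤ 3)
    -- the curve is not periodic
    (hper : ∀ k : ℕ, 0 < k → Moves φ r k) :
    ∃ N : ℕ, 0 < N ∧
      ∀ (ι : Type) [Finite ι] [Nonempty ι] (p : ι → ℕ) [∀ i, Fact (p i).Prime],
        Function.Injective p → (∀ i, ¬ p i ∣ N) → ∀ σ : ∀ i, K →+* ℚ_[p i],
        ∃ G : Set (∀ i, ℚ_[p i]), IsOpen G ∧ Dense G ∧ ∀ s ∈ G,
          ∃ V ∈ 𝓝 (fun i => point (σ i) r (s i)), ∀ x ∈ V,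
            (∀ i, ∀ q ∈ S, eval₂ (σ i) (x i) q = 0) → x ∈ closure (rationalPoints S σ) := by
  obtain ⟨s₀, hs₀⟩ := hsm
  rw [tangentSpace_eq] at hs₀
  obtain ⟨N, hN, h⟩ := Pool.Agent.K1H47.RC.dense_good K n S hS φ.toAut r hr hc
    (fun k hk => by
      obtain ⟨W, e, h1, h2, s, h3, w, h4, h5⟩ := hper k hk
      exact ⟨W, e, h1, h2, s, h3, w, img_of_image φ k h4, h5⟩) ⟨s₀, hs₀⟩
  refine ⟨N, hN, fun ι _ _ p _ hinj hp σ => ⟨Pool.Agent.K1H47.RC.good S r σ,
    Pool.Agent.K1H47.RC.isOpen_good S r σ, h ι p hinj hp σ, ?_⟩⟩
  rintro s ⟨V, hV, hx⟩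
  refine ⟨V, hV, fun x hxV hxS => hx x hxV fun i q hq => ?_⟩
  rw [eval_map]
  exact hxS i q hq

end Pool.Agent.Results.MP_ed3816_nt.AutomorphismsAndRationalCurves
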