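import Pool.Agent.K1H47.CO.Fin

/-!
# Simultaneous local density of the rational points on determinantal quartic surfaces

Let `T` be a `4 × 4 × 4` tensor over a number field `K` such that all the matrices `T(u, ·, ·)`,
`T(·, u, ·)`, `T(·, ·, u)`, `u ≠ 0`, over the algebraic closure have rank at least three, and let
`X` be the quartic surface `det T(u, ·, ·) = 0`, assumed to be irreducible. If `X` is smooth, it is
a K3 surface with an automorphism of positive entropy; in general its Picard number is two, it has
no elliptic fibration and no other automorphisms (Cayley, Oguiso). We prove that there are a finite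
set `E` of `K`-points of `X` and an integer `N ≠ 0` such that near every `K`-point `P` of `X` which
is not in `E`, in the product of the `X(K_v)` over any finite set of non-archimedean places which
do not divide `N`, the `K`-points of `X` are Zariski dense; and the local Zariski closures of `X(K)`
at the points of the product are empty, equal to `X`, or one of the points of `E`.

Idea of the proof. A `K`-point `P = u₀` gives the sequence `T(u₀, u₁, ·) = 0`, `T(·, u₁, u₂) = 0`,
`T(u₃, ·, u₂) = 0`, ..., which is the orbit of `P` under three birational (in fact biregular) maps.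
The steps are given by minors of degree three, both forwards and backwards, so the heights satisfy
`h(u_{i+1}) + h(u_{i-1}) ≥ 3 h(u_i) - C`, up to a bounded error, by Hilbert's Nullstellensatz. So the
orbits which are not periodic grow exponentially, and they are Zariski dense in `X` even along
arithmetic progressions, because two coordinates of the points of a curve satisfy an algebraic
relation whose degree does not depend on the iterate. At the good places the steps are isometries,
so that the orbits return near `P` in an arithmetic progression.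
-/

set_option autoImplicit false

namespace Pool.Agent.Results.MP_ed3816_nt.DeterminantalQuartics

open MvPolynomial Topology

universe u v

/-- the matrix `T(u, ·, ·)` -/
def contract {R : Type*} [CommRing R] (T : Fin 4 → Fin 4 → Fin 4 → R) (u : Fin 4 → R) :
    Matrix (Fin 4) (Fin 4) R :=
  Matrix.of fun b c => ∑ a, T a b c * u a

/-- cyclic rotation of the three slots of `T` -/
def rotate {R : Type*} (T : Fin 4 → Fin 4 → Fin 4 → R) : Fin 4 → Fin 4 → Fin 4 → R :=
  fun b c a => T a b c

/-- All the matrices `T(u, ·, ·)`, `u ≠ 0`, over the algebraic closure have rank at least three: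
one of their `3 × 3` minors is not zero. -/
def RankThree {K : Type u} [Field K] (T : Fin 4 → Fin 4 → Fin 4 → K) : Prop :=
  ∀ u : Fin 4 → AlgebraicClosure K, u ≠ 0 →
    (contract (fun a b c => algebraMap K (AlgebraicClosure K) (T a b c)) u).adjugate ≠ 0

/-- the determinant of `T(X, ·, ·)` -/
noncomputable def quartic {K : Type u} [Field K] (T : Fin 4 → Fin 4 → Fin 4 → K) :
    MvPolynomial (Fin 4) K :=
  (contract (fun a b c => C (T a b c)) X).det

/-- the `K`-points of the quartic surface -/
def IsPoint {K : Type u} [Field K] (T : Fin 4 → Fin 4 → Fin 4 → K) (P : Fin 4 → K) : Prop :=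
  P ≠ 0 ∧ eval P (quartic T) = 0

/-- the point `P` has representatives in `U` -/
def Meets {K : Type u} [Field K] {ι : Type} {L : ι → Type v} [∀ i, NontriviallyNormedField (L i)]
    (σ : ∀ i, K →+* L i) (U : Set (∀ i, Fin 4 → L i)) (P : Fin 4 → K) : Prop :=
  ∃ c : ∀ i, L i, (∀ i, c i ≠ 0) ∧ (fun i a => c i * σ i (P a)) ∈ U

/-- the ideal of the local Zariski closure of the `K`-points at `x`: the polynomials which vanish
at all multiples of all `K`-points close to `x` -/
def localIdeal {K : Type u} [Field K] (T : Fin 4 → Fin 4 → Fin 4 → K) {ι : Type} {L : ι → Type v}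
    [∀ i, NontriviallyNormedField (L i)] (σ : ∀ i, K →+* L i) (x : ∀ i, Fin 4 → L i) :
    Set (MvPolynomial (Fin 4) K) :=
  {f | ∃ U ∈ 𝓝 x, ∀ P, IsPoint T P → Meets σ U P → ∀ t : K, eval (t • P) f = 0}

/-- **Simultaneous local density of the rational points on determinantal quartics.** -/
theorem result {K : Type u} [Field K] [NumberField K] (T : Fin 4 → Fin 4 → Fin 4 → K)
    (h₀ : RankThree T) (h₁ : RankThree (rotate T)) (h₂ : RankThree (rotate (rotate T)))
    (hT : Irreducible (quartic T)) :
    ∃ E : Finset (Fin 4 → K), (∀ e ∈ E, IsPoint T e) ∧ ∃ N : ℕ, N ≠ 0 ∧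
      -- all finite families of good non-archimedean places
      ∀ (ι : Type) [Finite ι] [Nonempty ι] (L : ι → Type v) [∀ i, NontriviallyNormedField (L i)]
        [∀ i, CompleteSpace (L i)] [∀ i, IsUltrametricDist (L i)] (σ : ∀ i, K →+* L i),
        (∀ i, DenseRange (σ i)) → (∀ i, ‖(N : L i)‖ = 1) →
        -- (1) the `K`-points near the `K`-points outside `E` are Zariski dense
        (∀ P, IsPoint T P → (¬ ∃ e ∈ E, ∃ t : K, t ≠ 0 ∧ P = t • e) →
          localIdeal T σ (fun i a => σ i (P a)) = {f | quartic T ∣ f}) ∧
        -- (2) the trichotomy for the local Zariski closures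
        (∀ x : ∀ i, Fin 4 → L i, (∀ i, x i ≠ 0) →
          localIdeal T σ x = Set.univ ∨ localIdeal T σ x = {f | quartic T ∣ f} ∨
          ∃ e ∈ E, (∀ i, ∃ c : L i, c ≠ 0 ∧ x i = c • fun a => σ i (e a)) ∧
            localIdeal T σ x = {f | ∀ t : K, eval (t • e) f = 0}) := by
  have hND := Pool.Agent.K1H47.CO.ND_of_NC (T := T) h₀ h₁ h₂
  obtain ⟨E, hE, hE'⟩ := Pool.Agent.K1H47.CO.exists_E (T := T) h₀ h₁ h₂ hND
  obtain ⟨N, hN, hg⟩ := Pool.Agent.K1H47.CO.exists_good.{u, v} (T := T) h₀ h₁ h₂
  refine ⟨E, hE, N, hN, fun ι _ _ L _ _ _ σ hσ hNL => ⟨fun P hP hPE => ?_, fun x hx => ?_⟩⟩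
  · have hn : Pool.Agent.K1H47.CO.NonPer (Pool.Agent.K1H47.CO.seqU T P) := by
      by_contra hcon
      exact hPE (hE' P hP hcon)
    ext f
    constructor
    · rintro ⟨U, hU, hf⟩
      by_contra hdiv
      have hU' : U ∈ 𝓝 (fun i a => (fun _ => 1 : ∀ i, L i) i * σ i (P a)) := by
        simpa using hU
      obtain ⟨Q, hQ, hQU, t, ht⟩ := Pool.Agent.K1H47.CO.near h₀ h₁ h₂ hT hND hσ
        (fun i => hg (L i) (σ i) (hNL i)) hP hn (fun i => one_ne_zero) hU' hdiv
      exact ht (hf Q hQ hQU t)
    · rintro ⟨g, rfl⟩
      refine ⟨Set.univ, Filter.univ_mem, fun P hP _ t => ?_⟩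
      have h3 : eval (t • P) (quartic T) = 0 := by
        have h4 := Pool.Agent.K1H47.CO.eval_smul_hom (Pool.Agent.K1H47.CO.quartic_hom T) t P
        have h5 : eval P (Pool.Agent.K1H47.CO.quartic T) = 0 := hP.2
        rw [h5, mul_zero] at h4
        exact h4
      rw [map_mul, h3, zero_mul]
  · exact Pool.Agent.K1H47.CO.trichotomy h₀ h₁ h₂ hT hND hE hE' hσ
      (fun i => hg (L i) (σ i) (hNL i)) hx

end Pool.Agent.Results.MP_ed3816_nt.DeterminantalQuartics
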