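import Pool.Agent.K1H47.RA.Glob2
import Pool.Agent.K1H16.RA.Vel
import Pool.Agent.K1H33.RA.Rev

/-!
# Interior points of the closure of the rational points at all finite sets of good primes

Let `X = V(S)` be a projective variety over a number field `K` and `φ` an automorphism of `X` over
`K`. We prove that there is `N ≥ 1` with the following property. Let `P` be a `K`-point of `X` which
is not periodic under `φ` and at which the tangent space of `X` is a plane (for example a smooth
point of a surface), let `ψ` be a rational map which fixes `P` and maps `φ ^ k (P)` to `φ ^ (-k) (P)`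
for all `k ≥ 0` (for example an involution of `X` with `ψ φ ψ = φ⁻¹`), and let `R` be a rational
curve on `X` over `K` through `P` whose direction at `P` is not an eigenvector of the differential
of `ψ` for the eigenvalue `-1`. Then for all finite families of distinct primes `p i` which do not
divide `N` and all embeddings `σ i : K → ℚ_[p i]` the point `P` is an interior point of the closure
of `X(K)` in `∏ X(ℚ_[p i])`.

For example, let `X` be a K3 surface with two involutions `ψ` and `ψ'` such that `X / ψ` is a plane,
`φ = ψ ψ'`, and let `P` be the point above a point in which a line is tangent to the branch curve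
of `X → X / ψ`, such that the preimage `R` of this line is a rational curve (with a node at `P`).

Idea of the proof. At the primes which do not divide `N` the automorphism has good reduction, and
an iterate `φ ^ k` is interpolated on the residue classes modulo `p²`: the points
`φ ^ (k t) (P)`, `t ∈ ℤ_p`, exist and are analytic. The velocity at the time zero does not vanish
since `P` is not periodic, and it is reversed by the differential of `ψ`. So its direction is
different from the one of the curve, at all primes, and `(s, t) ↦ φ ^ (k t) (R (s))` is a local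
isomorphism near `P`. The times `t` and the parameters `s` can be approximated at all the primes
simultaneously by natural and by rational numbers.
-/

set_option autoImplicit false

namespace Pool.Agent.Results.MP_ed3816_nt.ReversedOrbits

open MvPolynomial Topology

/-- The values of the tuple `f` of polynomials over `K` at the vector `z` over the extension `F`
of `K`. -/
noncomputable def value {K F : Type} [Field K] [Field F] (τ : K →+* F) {n : ℕ}
    (f : Fin (n + 1) → MvPolynomial (Fin (n + 1)) K) (z : Fin (n + 1) → F) : Fin (n + 1) → F :=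
  fun i => eval₂ τ z (f i)

/-- The tuples `f a` define a map from `V(S)` to `V(S)` of which the tuples `g b` define a left
inverse: over every extension field `F` of `K`, at every point `z` of `V(S)`, one of the tuples
`f a` does not vanish; each `f a` which does not vanish at `z` has its value in `V(S)`, and each
`g b` which does not vanish at this value brings it back to the point `z`. -/
def Inverts {K : Type} [Field K] {n : ℕ} (S : Set (MvPolynomial (Fin (n + 1)) K)) {r : ℕ}
    (f g : Fin r → Fin (n + 1) → MvPolynomial (Fin (n + 1)) K) : Prop :=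
  ∀ (F : Type) [Field F] (τ : K →+* F) (z : Fin (n + 1) → F), z ≠ 0 →
    (∀ s ∈ S, eval₂ τ z s = 0) →
    (∃ a, value τ (f a) z ≠ 0) ∧
    ∀ a, value τ (f a) z ≠ 0 →
      (∀ s ∈ S, eval₂ τ (value τ (f a) z) s = 0) ∧
      ∀ b, value τ (g b) (value τ (f a) z) ≠ 0 →
        ∃ c : F, value τ (g b) (value τ (f a) z) = c • z

/-- An automorphism of the projective variety `V(S)` over `K` together with its inverse, each
of them given by finitely many tuples of forms of positive degree. -/
structure Automorphism {K : Type} [Field K] {n : ℕ}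
    (S : Set (MvPolynomial (Fin (n + 1)) K)) where
  r : ℕ
  f : Fin r → Fin (n + 1) → MvPolynomial (Fin (n + 1)) K
  g : Fin r → Fin (n + 1) → MvPolynomial (Fin (n + 1)) K
  d : Fin r → ℕ
  e : Fin r → ℕ
  d_pos : ∀ a, 0 < d a
  e_pos : ∀ a, 0 < e a
  f_hom : ∀ a i, (f a i).IsHomogeneous (d a)
  g_hom : ∀ a i, (g a i).IsHomogeneous (e a)
  left : Inverts S f g
  right : Inverts S g f

/-- `w` represents the image of the point represented by `z` under the `k`-th iterate of `φ`. -/
def Image {K : Type} [Field K] {n : ℕ} {S : Set (MvPolynomial (Fin (n + 1)) K)}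
    (φ : Automorphism S) : ℕ → (Fin (n + 1) → K) → (Fin (n + 1) → K) → Prop
  | 0, z, w => w = z
  | k + 1, z, w => ∃ v, Image φ k z v ∧ ∃ a, w = value (RingHom.id K) (φ.f a) v ∧ w ≠ 0

/-- The tangent space at `z` of the cone over `V(S)`. -/
noncomputable def tangentSpace {K : Type} [Field K] {n : ℕ} (S : Set (MvPolynomial (Fin (n + 1)) K))
    (z : Fin (n + 1) → K) : Submodule K (Fin (n + 1) → K) :=
  ⨅ q ∈ S, LinearMap.ker (∑ i, eval z (pderiv i q) • LinearMap.proj i :
    (Fin (n + 1) → K) →ₗ[K] K)

/-- The `K`-rational points of `V(S)` in the product over the places `σ i`: all families of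
representatives, over the completions, of the images of one `K`-rational point. -/
def rationalPoints {K : Type} [Field K] {n : ℕ} (S : Set (MvPolynomial (Fin (n + 1)) K))
    {ι : Type} {p : ι → ℕ} [∀ i, Fact (p i).Prime] (σ : ∀ i, K →+* ℚ_[p i]) :
    Set (∀ i, Fin (n + 1) → ℚ_[p i]) :=
  {x | ∃ y : Fin (n + 1) → K, y ≠ 0 ∧ (∀ q ∈ S, eval y q = 0) ∧
    ∀ i, ∃ c : ℚ_[p i], c ≠ 0 ∧ x i = fun j => c * σ i (y j)}

/-- The same data in the notation of the helper files. -/
def Automorphism.toAut {K : Type} [Field K] {n : ℕ} {S : Set (MvPolynomial (Fin (n + 1)) K)}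
    (φ : Automorphism S) : Pool.Agent.K1H69.MZ.Aut S where
  m := φ.r
  f := φ.f
  g := φ.g
  d := φ.d
  e := φ.e
  d_pos := φ.d_pos
  e_pos := φ.e_pos
  f_hom := φ.f_hom
  g_hom := φ.g_hom
  left := φ.left
  right := φ.right

lemma image_of_img {K : Type} [Field K] {n : ℕ} {S : Set (MvPolynomial (Fin (n + 1)) K)}
    (φ : Automorphism S) (k : ℕ) : ∀ {z w : Fin (n + 1) → K},
      Pool.Agent.K1H69.MZ.Img φ.toAut k z w → Image φ k z w := by
  induction k with
  | zero => intro z w h; exact h
  | succ k ih =>
    rintro z w ⟨v, hv, a, hw⟩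
    exact ⟨v, ih hv, a, hw⟩

lemma tangentSpace_eq {K : Type} [Field K] {n : ℕ} (S : Set (MvPolynomial (Fin (n + 1)) K))
    (z : Fin (n + 1) → K) : tangentSpace S z = Pool.Agent.K1H47.RC.tanSp S z := by
  ext w
  simp only [tangentSpace, Submodule.mem_iInf, LinearMap.mem_ker]
  refine forall₂_congr fun q _ => ?_
  simp [LinearMap.sum_apply]

/-- The tuple `Ψ` of forms maps `φ ^ k (P)` to `φ ^ (-k) (P)` for all `k ≥ 0`: the value of `Ψ` at a
representative of `φ ^ k (P)` satisfies the equations `S`, and its image under `φ ^ k` is `P`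
(provided that the value is not the zero vector, which has no image). -/
def Reverses {K : Type} [Field K] {n : ℕ} {S : Set (MvPolynomial (Fin (n + 1)) K)}
    (φ : Automorphism S) (Ψ : Fin (n + 1) → MvPolynomial (Fin (n + 1)) K)
    (P : Fin (n + 1) → K) : Prop :=
  ∀ (k : ℕ) (w : Fin (n + 1) → K), Image φ k P w →
    (∀ q ∈ S, eval (value (RingHom.id K) Ψ w) q = 0) ∧
    ∀ w', Image φ k (value (RingHom.id K) Ψ w) w' → ∃ c : K, w' = c • P

/-- The differential of the tuple `Ψ` of polynomials at `P`, applied to the vector `T`. -/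
noncomputable def differential {K : Type} [Field K] {n : ℕ}
    (Ψ : Fin (n + 1) → MvPolynomial (Fin (n + 1)) K) (P T : Fin (n + 1) → K) : Fin (n + 1) → K :=
  fun j => ∑ m, eval P (pderiv m (Ψ j)) * T m

lemma img_of_image {K : Type} [Field K] {n : ℕ} {S : Set (MvPolynomial (Fin (n + 1)) K)}
    (φ : Automorphism S) (k : ℕ) : ∀ {z w : Fin (n + 1) → K}, Image φ k z w →
      Pool.Agent.K1H69.MZ.Img φ.toAut k z w := by
  induction k with
  | zero => intro z w h; exact h
  | succ k ih =>
    rintro z w ⟨v, hv, a, hw⟩
    exact ⟨v, ih hv, a, hw⟩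

lemma minor {K : Type} [Field K] {n : ℕ} {u v : Fin (n + 1) → K}
    (h : LinearIndependent K ![u, v]) : ∃ i j, u i * v j ≠ u j * v i := by
  by_contra hcon
  push Not at hcon
  have h3 : ∀ a b : K, a • u + b • v = 0 → a = 0 ∧ b = 0 := by
    intro a b habc
    have h1 := Fintype.linearIndependent_iff.1 h ![a, b] (by
      rw [Fin.sum_univ_two]
      exact habc)
    exact ⟨h1 0, h1 1⟩
  have hu : u ≠ 0 := by
    intro h0
    have := (h3 1 0 (by simp [h0])).1
    exact one_ne_zero this
  obtain ⟨a, ha⟩ := Function.ne_iff.1 hu
  have ha' : u a ≠ 0 := ha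
  have h4 := (h3 (v a) (-u a) (by
    funext b
    simp only [Pi.add_apply, Pi.smul_apply, smul_eq_mul, Pi.zero_apply]
    linear_combination -hcon a b)).2
  exact ha' (neg_eq_zero.1 h4)

/-- **Interior points of the closure of the rational points.** -/
theorem result (K : Type) [Field K] [NumberField K] (n : ℕ)
    (S : Set (MvPolynomial (Fin (n + 1)) K)) (hS : ∀ q ∈ S, ∃ d : ℕ, q.IsHomogeneous d)
    (φ : Automorphism S) :
    ∃ N : ℕ, 0 < N ∧
      ∀ P : Fin (n + 1) → K, P ≠ 0 →
        -- the tangent space of `V(S)` at `P` has dimension at most two (three for the cone)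
        Module.finrank K (tangentSpace S P) ≤ 3 →
        -- the point is not periodic
        (∀ k : ℕ, 0 < k → ∀ w, Image φ k P w → ∀ c : K, w ≠ c • P) →
        -- `Ψ` is given by forms of the same degree, fixes `P` and reverses the orbit of `P`
        ∀ (Ψ : Fin (n + 1) → MvPolynomial (Fin (n + 1)) K) (d : ℕ),
          (∀ i, (Ψ i).IsHomogeneous d) →
          ∀ l : K, l ≠ 0 → value (RingHom.id K) Ψ P = l • P → Reverses φ Ψ P →
        -- `r` parametrizes a curve on `V(S)` through `P`
        ∀ (r : Fin (n + 1) → Polynomial K) (s : K), (∀ q ∈ S, aeval r q = 0) →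
          (∃ c : K, c ≠ 0 ∧ (fun i => (r i).eval s) = c • P) →
          -- the tangent vector `T` of the curve is not mapped to `-T` in the tangent space at `P`
          (LinearIndependent K ![P, differential Ψ P (fun i => (r i).derivative.eval s) +
            l • fun i => (r i).derivative.eval s]) →
          ∀ (ι : Type) [Fintype ι] [Nonempty ι] (p : ι → ℕ) [∀ i, Fact (p i).Prime],
            Function.Injective p → (∀ i, ¬ p i ∣ N) →
            ∀ σ : ∀ i, K →+* ℚ_[p i],
            ∃ V ∈ 𝓝 (fun i j => σ i (P j)), ∀ x ∈ V,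
              (∀ i, ∀ q ∈ S, eval₂ (σ i) (x i) q = 0) → x ∈ closure (rationalPoints S σ) := by
  obtain ⟨N, hN, h⟩ := Pool.Agent.K1H47.RA.interior_rev Pool.Agent.K1H16.RA.t_VEL
    Pool.Agent.K1H33.RA.t_REV K n S hS φ.toAut
  refine ⟨N, hN, fun P hP0 hsm hper Ψ d hΨ l hl hΨP hrev r s hr hrP htr ι _ _ p _ hinj hp σ => ?_⟩
  rw [tangentSpace_eq] at hsm
  obtain ⟨V, hV, hx⟩ := h P hP0 hsm
    (fun k hk w hw => fun ⟨c, hc⟩ => hper k hk w (image_of_img φ k hw) c hc)
    r s hr hrP Ψ d hΨ l hl (fun i => congrFun hΨP i)
    (fun k w hw => by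
      obtain ⟨h1, h2⟩ := hrev k w (image_of_img φ k hw)
      exact ⟨h1, fun w' hw' => h2 w' (image_of_img φ k hw')⟩)
    (minor htr) ι p hinj hp σ
  refine ⟨V, hV, fun x hxV hxS => hx x hxV fun i q hq => ?_⟩
  rw [eval_map]
  exact hxS i q hq

end Pool.Agent.Results.MP_ed3816_nt.ReversedOrbits
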